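import Pool.Agent.Y771.RP.Ferm
import Pool.Agent.Q138.PS.WF

/-!
# Relations between values of the beta function near given points
-/

set_option autoImplicit false

namespace H104.RN

open Pool.Agent
open Filter Topology NumberField Pool.Agent.Q138.PS
open scoped ENNReal NNReal

open IntermediateField in
theorem primF (K : IntermediateField ℚ ℂ) (hK : FiniteDimensional ℚ K) : ∃ x : ℂ, IsAlgebraic ℚ x ∧ K = ℚ⟮x⟯ := by
  obtain ⟨a, ha⟩ := @Field.exists_primitive_element ℚ K _ _ (IntermediateField.algebra' K) hK inferInstance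
  refine ⟨a, ?_, ?_⟩
  · have h1 : IsAlgebraic ℚ a := Algebra.IsAlgebraic.isAlgebraic a
    exact h1.algebraMap
  · have h1 := congrArg IntermediateField.lift ha
    rw [IntermediateField.lift_adjoin_simple, IntermediateField.lift_top] at h1
    exact h1.symm

open IntermediateField in
theorem primN (K : IntermediateField ℚ ℂ) (hK : NumberField K) : ∃ x : ℂ, IsAlgebraic ℚ x ∧ K = ℚ⟮x⟯ := by
  have h1 : @FiniteDimensional ℚ K _ _ (DivisionRing.toRatAlgebra (R := K)).toModule := hK.to_finiteDimensional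
  have h2 : (DivisionRing.toRatAlgebra (R := K)) = IntermediateField.algebra' K := Subsingleton.elim _ _
  rw [h2] at h1
  exact primF K h1

open IntermediateField in
/-- The number fields in `ℂ` are countable in number. -/
theorem countN : Countable {K : IntermediateField ℚ ℂ // NumberField K} := by
  have hA : Countable {x : ℂ // IsAlgebraic ℚ x} := (Algebraic.countable ℚ ℂ).to_subtype
  have hinj : Function.Injective (fun K : {K : IntermediateField ℚ ℂ // NumberField K} =>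
      (⟨(primN K.1 K.2).choose, (primN K.1 K.2).choose_spec.1⟩ : {x : ℂ // IsAlgebraic ℚ x})) := by
    intro K L h
    have h1 := congrArg Subtype.val h
    refine Subtype.ext ?_
    rw [(primN K.1 K.2).choose_spec.2, (primN L.1 L.2).choose_spec.2]
    exact congrArg (fun x => ℚ⟮x⟯) h1
  exact hinj.countable

theorem num_coeff {A T T' : ℝ} (h1 : 1 ≤ T) (h2 : T ≤ T') : T ^ A ≤ T' ^ max A 0 :=
  (Real.rpow_le_rpow_of_exponent_le h1 (le_max_left _ _)).trans (Real.rpow_le_rpow (by linarith) h2 (le_max_right _ _))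

theorem num_value {B T T' : ℝ} (h0 : 1 ≤ T) (h1 : 2 ^ max B 0 ≤ T) (h2 : T ≤ T') (h3 : T' ≤ 2 * T) :
    T ^ (-(max B 0 + 1)) ≤ T' ^ (-B) := by
  have hB : 0 ≤ max B 0 := le_max_right _ _
  have e1 : T' ^ (-(max B 0)) ≤ T' ^ (-B) :=
    Real.rpow_le_rpow_of_exponent_le (h0.trans h2) (neg_le_neg (le_max_left _ _))
  refine le_trans ?_ e1
  have hT : 0 < T := by linarith
  have hT' : 0 < T' := by linarith
  rw [Real.rpow_neg hT.le, Real.rpow_neg hT'.le]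
  refine inv_anti₀ (Real.rpow_pos_of_pos hT' _) ?_
  refine (Real.rpow_le_rpow hT'.le h3 hB).trans ?_
  rw [Real.mul_rpow (by norm_num) hT.le, Real.rpow_add hT, Real.rpow_one, mul_comm]
  exact mul_le_mul_of_nonneg_left h1 (Real.rpow_nonneg hT.le _)

/-- Exceptional tuples of rational numbers of `[a, b]` with denominators at most `T`. -/
def Exc {m g : ℕ} (n d : ℕ) (ρ : Fin m → ℝ) (F : Type) [Field F] [NumberField F] (ι : F →+* ℂ)
    (ξ : Fin g → ℂ) (a b A R T : ℝ) : Set (Fin n → ℚ) :=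
  {q | (∀ j, a ≤ (q j : ℝ) ∧ (q j : ℝ) ≤ b ∧ ((q j).den : ℝ) ≤ T) ∧
    ∃ P : MvPolynomial (Fin n × Fin m) ℂ, (∀ x, P.degreeOf x ≤ d) ∧
    (∀ s, ∃ c : Fin g → 𝓞 F, (∀ i (φ : F →+* ℂ), ‖φ (c i)‖ ≤ T ^ A) ∧ P.coeff s = ∑ i, ξ i * ι (c i)) ∧
    ∃ s₀, P.coeff s₀ ≠ 0 ∧
      ‖MvPolynomial.aeval (fun x : Fin n × Fin m => ((TH818.AP.Bt (ρ x.2) (q x.1) : ℝ) : ℂ)) P‖ ≤
        T ^ (-R) * ‖P.coeff s₀‖}

/-- The rational numbers of `[a, b]` with denominators at most `T`. -/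
noncomputable def rat (a b T : ℝ) : Finset ℚ := by
  classical
  exact (((Finset.range (⌊b * T⌋₊ + 1)) ×ˢ (Finset.Icc 1 ⌊T⌋₊)).image fun p : ℕ × ℕ => (p.1 : ℚ) / p.2).filter
    fun x => a ≤ (x : ℝ) ∧ (x : ℝ) ≤ b ∧ (x.den : ℝ) ≤ T

theorem rat_le {a b T : ℝ} {x : ℚ} (hx : x ∈ rat a b T) : a ≤ (x : ℝ) ∧ (x : ℝ) ≤ b ∧ (x.den : ℝ) ≤ T := by
  unfold rat at hx
  exact (Finset.mem_filter.1 hx).2

theorem mem_rat {a b T : ℝ} (ha : 0 < a) {x : ℚ} (h1 : a ≤ (x : ℝ)) (h2 : (x : ℝ) ≤ b)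
    (h3 : (x.den : ℝ) ≤ T) : x ∈ rat a b T := by
  unfold rat
  refine Finset.mem_filter.2 ⟨?_, h1, h2, h3⟩
  have hx0 : (0 : ℝ) < x := ha.trans_le h1
  have hx0' : 0 < x := by exact_mod_cast hx0
  have hnum : 0 ≤ x.num := (Rat.num_pos.2 hx0').le
  have hden : (0 : ℝ) < x.den := by exact_mod_cast x.den_pos
  refine Finset.mem_image.2 ⟨(x.num.toNat, x.den), ?_, ?_⟩
  · rw [Finset.mem_product, Finset.mem_range, Finset.mem_Icc]
    refine ⟨?_, x.den_pos, Nat.le_floor h3⟩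
    refine Nat.lt_succ_of_le (Nat.le_floor ?_)
    have h4 : ((x.num.toNat : ℕ) : ℝ) = (x.num : ℝ) := by
      have : ((x.num.toNat : ℕ) : ℤ) = x.num := Int.toNat_of_nonneg hnum
      exact_mod_cast this
    have h5 : (x : ℝ) * x.den = x.num := by
      have : x * x.den = x.num := Rat.mul_den_eq_num x
      exact_mod_cast this
    rw [h4, ← h5]
    exact mul_le_mul h2 h3 hden.le (hx0.le.trans h2)
  · show ((x.num.toNat : ℕ) : ℚ) / x.den = x
    have h4 : ((x.num.toNat : ℕ) : ℚ) = (x.num : ℚ) := by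
      have : ((x.num.toNat : ℕ) : ℤ) = x.num := Int.toNat_of_nonneg hnum
      exact_mod_cast this
    rw [h4, Rat.num_div_den]

theorem card_rat {a b T : ℝ} (hb : 0 ≤ b) (hT : 1 ≤ T) : ((rat a b T).card : ℝ) ≤ (b + 1) * T ^ 2 := by
  classical
  have h1 : (rat a b T).card ≤ (⌊b * T⌋₊ + 1) * ⌊T⌋₊ := by
    unfold rat
    refine (Finset.card_filter_le _ _).trans (Finset.card_image_le.trans ?_)
    rw [Finset.card_product, Finset.card_range, Nat.card_Icc]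
    simp
  have h2 : ((⌊b * T⌋₊ : ℕ) : ℝ) ≤ b * T := Nat.floor_le (by positivity)
  have h3 : ((⌊T⌋₊ : ℕ) : ℝ) ≤ T := Nat.floor_le (by positivity)
  calc ((rat a b T).card : ℝ) ≤ ((⌊b * T⌋₊ : ℕ) + 1) * (⌊T⌋₊ : ℕ) := by exact_mod_cast h1
    _ ≤ (b * T + 1) * T := mul_le_mul (by linarith) h3 (Nat.cast_nonneg _) (by positivity)
    _ ≤ (b + 1) * T ^ 2 := by nlinarith

theorem exc_finite {m g n d : ℕ} {ρ : Fin m → ℝ} {F : Type} [Field F] [NumberField F] {ι : F →+* ℂ}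
    {ξ : Fin g → ℂ} {a b A R T : ℝ} (ha : 0 < a) : (Exc n d ρ F ι ξ a b A R T).Finite := by
  refine (Set.Finite.pi' (t := fun _ : Fin n => ((rat a b T : Finset ℚ) : Set ℚ))
    (fun _ => Finset.finite_toSet _)).subset ?_
  intro q hq j
  exact mem_rat ha (hq.1 j).1 (hq.1 j).2.1 (hq.1 j).2.2

/-- The number of exceptional tuples. -/
theorem count (l n m g d : ℕ) (ρ : Fin m → ℝ) (hρ : ∀ i, 0 < ρ i) (h1 : ∀ i, ∀ z : ℤ, ρ i ≠ z)
    (h2 : ∀ i k, i ≠ k → ∀ z : ℤ, ρ i - ρ k ≠ z) {a b : ℝ} (ha : 0 < a) (hb : 0 ≤ b) (A ε : ℝ) (hε : 0 < ε) :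
    ∃ R C T₀ : ℝ, 1 ≤ T₀ ∧ ∀ (F : Type) [Field F] [NumberField F], Module.finrank ℚ F ≤ l →
      ∀ (ι : F →+* ℂ) (ξ : Fin g → ℂ) (T : ℝ), T₀ ≤ T →
        ((Exc n d ρ F ι ξ a b A R T).ncard : ℝ) ≤ C * T ^ (2 * ((n - 1 : ℕ) : ℝ) + ε) := by
  obtain ⟨R, C, T₀, hC, H⟩ := Y771.RP.ferm_main l n m g d ρ hρ h1 h2 a b ha A ε hε
  refine ⟨R, C * (b + 1) ^ (n - 1), max T₀ 1, le_max_right _ _, fun F _ _ hF ι ξ T hT => ?_⟩
  have hT1 : 1 ≤ T := (le_max_right _ _).trans hT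
  have hT0 : 0 < T := by linarith
  have h3 := H F hF ι ξ T ((le_max_left _ _).trans hT) (rat a b T) fun x hx => rat_le hx
  have h4 : Exc n d ρ F ι ξ a b A R T ⊆ {q : Fin n → ℚ | (∀ j, q j ∈ rat a b T) ∧
      ∃ P : MvPolynomial (Fin n × Fin m) ℂ, (∀ x, P.degreeOf x ≤ d) ∧
      (∀ s, ∃ c : Fin g → 𝓞 F, (∀ i (φ : F →+* ℂ), ‖φ (c i)‖ ≤ T ^ A) ∧ P.coeff s = ∑ i, ξ i * ι (c i)) ∧
      ∃ s₀, P.coeff s₀ ≠ 0 ∧
        ‖MvPolynomial.aeval (fun x : Fin n × Fin m => ((TH818.AP.Bt (ρ x.2) (q x.1) : ℝ) : ℂ)) P‖ ≤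
          T ^ (-R) * ‖P.coeff s₀‖} := by
    rintro q ⟨hq, hP⟩
    exact ⟨fun j => mem_rat ha (hq j).1 (hq j).2.1 (hq j).2.2, hP⟩
  have h5 : ((Exc n d ρ F ι ξ a b A R T).ncard : ℝ) ≤ C * T ^ ε * ((rat a b T).card : ℝ) ^ (n - 1) := by
    refine le_trans ?_ h3
    have h6 := Set.ncard_le_ncard h4 ((Set.Finite.pi' (t := fun _ : Fin n => ((rat a b T : Finset ℚ) : Set ℚ))
      (fun _ => Finset.finite_toSet _)).subset fun q hq j => hq.1 j)
    exact_mod_cast h6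
  calc ((Exc n d ρ F ι ξ a b A R T).ncard : ℝ) ≤ C * T ^ ε * ((rat a b T).card : ℝ) ^ (n - 1) := h5
    _ ≤ C * T ^ ε * ((b + 1) * T ^ 2) ^ (n - 1) := by
        have : (0 : ℝ) ≤ T ^ ε := Real.rpow_nonneg hT0.le _
        exact mul_le_mul_of_nonneg_left (pow_le_pow_left₀ (Nat.cast_nonneg _) (card_rat hb hT1) _)
          (mul_nonneg hC this)
    _ = C * (b + 1) ^ (n - 1) * T ^ (2 * ((n - 1 : ℕ) : ℝ) + ε) := by
        rw [mul_pow, Real.rpow_add hT0, Real.rpow_mul hT0.le, Real.rpow_natCast,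
          show (T : ℝ) ^ (2 : ℝ) = T ^ 2 from Real.rpow_two T]
        ring

theorem mono {m g n d : ℕ} {ρ : Fin m → ℝ} {F : Type} [Field F] [NumberField F] {ι : F →+* ℂ}
    {ξ : Fin g → ℂ} {a b A R T T' : ℝ} (h1 : max 1 (2 ^ max R 0) ≤ T) (h2 : T ≤ T') (h3 : T' ≤ 2 * T) :
    Exc n d ρ F ι ξ a b A (max R 0 + 1) T ⊆ Exc n d ρ F ι ξ a b (max A 0) R T' := by
  have h4 : 1 ≤ T := (le_max_left _ _).trans h1
  rintro q ⟨hq, P, hP, hc, s₀, hs, hv⟩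
  refine ⟨fun j => ⟨(hq j).1, (hq j).2.1, (hq j).2.2.trans h2⟩, P, hP, fun s => ?_, s₀, hs, hv.trans ?_⟩
  · obtain ⟨c, hc1, hc2⟩ := hc s
    exact ⟨c, fun i φ => (hc1 i φ).trans (num_coeff h4 h2), hc2⟩
  · exact mul_le_mul_of_nonneg_right (num_value h4 ((le_max_right _ _).trans h1) h2 h3) (norm_nonneg _)

/-- The dimension of the set of points with close exceptional tuples. -/
theorem dim_close {m g n d : ℕ} {ρ : Fin m → ℝ} {F : Type} [Field F] [NumberField F] {ι : F →+* ℂ}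
    {ξ : Fin g → ℂ} {a b A R C T₀ ε θ : ℝ} (ha : 0 < a) (hT₀ : 1 ≤ T₀) (hε : 0 < ε) (hθ : 0 < θ)
    (H : ∀ T : ℝ, T₀ ≤ T →
      ((Exc n d ρ F ι ξ a b (max A 0) R T).ncard : ℝ) ≤ C * T ^ (2 * ((n - 1 : ℕ) : ℝ) + ε)) :
    dimH (Close (algebraMap ℚ ℂ) (fun T => Exc n d ρ F ι ξ a b A (max R 0 + 1) T) θ) ≤
      ENNReal.ofReal ((2 * ((n - 1 : ℕ) : ℝ) + ε) / θ) := by
  obtain ⟨c, hc⟩ : ∃ c : ℝ, c = 2 * ((n - 1 : ℕ) : ℝ) + ε := ⟨_, rfl⟩
  rw [← hc] at H ⊢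
  have hc0 : 0 < c := by rw [hc]; positivity
  have hlim : Tendsto (fun i : ℕ => (2 : ℝ) ^ i) atTop atTop := tendsto_pow_atTop_atTop_of_one_lt (by norm_num)
  refine dimH_close (algebraMap ℚ ℂ) _ (fun i => Exc n d ρ F ι ξ a b (max A 0) R (2 ^ (i + 1))) θ c
    (C * 2 ^ c) hθ hc0.le ?_ ?_ ?_
  · exact Eventually.of_forall fun i => exc_finite ha
  · filter_upwards [hlim.eventually_ge_atTop T₀] with i hi
    have h1 : T₀ ≤ (2 : ℝ) ^ (i + 1) := hi.trans (pow_le_pow_right₀ (by norm_num) (by omega))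
    refine (H _ h1).trans (le_of_eq ?_)
    rw [pow_succ, Real.mul_rpow (by positivity) (by norm_num)]
    ring
  · filter_upwards [hlim.eventually_ge_atTop (max 1 (2 ^ max R 0))] with i hi T h1 h2
    exact mono (hi.trans h1) h2 (by rw [pow_succ]; linarith)

end H104.RN
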